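import Pool.Agent.X245.TD.Bumps

set_option autoImplicit false

/-!
Turing determinacy implies that every map from the bounded real sequences modulo null sequences to
the reals is constant on an affine isometric copy of the ball of radius `R` of the space of bounded
sequences, for every `R`. Stated as an explicit reduction to the determinacy of Turing invariant
sets.
-/

namespace Pool.Agent.Results.MP_917879_lc.IsometricCopies

open Pool.Agent.H685R3 Pool.Agent.TH774.TD Pool.Agent.X245.TD Filter Topology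

/-- `x` and `y` have the same Turing degree (Mathlib's Turing reducibility, for characteristic
functions). -/
def SameDegree (x y : ℕ → Bool) : Prop :=
  TuringReducible (charFn x) (charFn y) ∧ TuringReducible (charFn y) (charFn x)

/-- The bounded sequences. -/
def Bdd (u : ℕ → ℝ) : Prop := ∃ C, ∀ n, |u n| ≤ C

/-- The map `a ↦ (n ↦ c n * a (j n))`. -/
noncomputable def lin (c : ℕ → ℝ) (j : ℕ → ℕ) : (ℕ → ℝ) →ₗ[ℝ] (ℕ → ℝ) where
  toFun := fun a n => c n * a (j n)
  map_add' := fun a b => by
    funext n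
    simp only [Pi.add_apply]
    ring
  map_smul' := fun r a => by
    funext n
    simp only [Pi.smul_apply, smul_eq_mul, RingHom.id_apply]
    ring

theorem lin_apply (c : ℕ → ℝ) (j : ℕ → ℕ) (a : ℕ → ℝ) (n : ℕ) : lin c j a n = c n * a (j n) := rfl

theorem isometry_lin {c : ℕ → ℝ} {j : ℕ → ℕ} (hc : ∀ n, |c n| ≤ 1)
    (hj : ∀ i, ∃ᶠ n in atTop, |c n| = 1 ∧ j n = i) {a : ℕ → ℝ} (ha : Bdd a) :
    limsup (fun n => |lin c j a n|) atTop = ⨆ i, |a i| := by
  obtain ⟨A, hA⟩ := ha
  have hbdd : BddAbove (Set.range fun i => |a i|) := ⟨A, by rintro _ ⟨i, rfl⟩; exact hA i⟩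
  have hle : ∀ n, |lin c j a n| ≤ ⨆ i, |a i| := by
    intro n
    rw [lin_apply, abs_mul]
    have h1 : |a (j n)| ≤ ⨆ i, |a i| := le_ciSup hbdd (j n)
    calc |c n| * |a (j n)| ≤ 1 * |a (j n)| := mul_le_mul_of_nonneg_right (hc n) (abs_nonneg _)
      _ ≤ ⨆ i, |a i| := by rw [one_mul]; exact h1
  have hb1 : IsBoundedUnder (· ≤ ·) atTop fun n => |lin c j a n| :=
    ⟨⨆ i, |a i|, eventually_map.2 (Eventually.of_forall hle)⟩
  have hb2 : IsBoundedUnder (· ≥ ·) atTop fun n => |lin c j a n| :=
    ⟨0, eventually_map.2 (Eventually.of_forall fun n => abs_nonneg _)⟩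
  apply le_antisymm
  · exact limsup_le_of_le hb2.isCoboundedUnder_le (Eventually.of_forall hle)
  · refine ciSup_le fun i => ?_
    refine le_limsup_of_frequently_le ?_ hb1
    refine (hj i).mono fun n hn => ?_
    rw [lin_apply, abs_mul, hn.1, hn.2, one_mul]

/-- For every `R > 0` there is a Borel map `w` from the Cantor space to the sequences in
`[0, 8 R]`, sending Turing equivalent reals to sequences with difference tending to zero, such
that, for every map `F` from the real sequences to the Cantor space which does not change under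
null perturbations of bounded sequences, the sets `{x | F (w x) i = true}` are Turing invariant;
and if all of them are determined, then there are a bounded sequence `u` and a linear map `T` with
`limsup |T a| = sup |a|` for all bounded `a` (so `T` induces a linear isometry from the space of
bounded sequences with the supremum norm into its quotient by the null sequences), such that
`F (u + T a) = F u` for all the sequences `a` with values in `[-R, R]`. -/
theorem result (R : ℝ) (hR : 0 < R) :
    ∃ w : (ℕ → Bool) → ℕ → ℝ, Measurable w ∧ (∀ x n, w x n ∈ Set.Icc 0 (8 * R)) ∧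
      (∀ x y, SameDegree x y → Tendsto (fun n => w x n - w y n) atTop (𝓝 0)) ∧
      ∀ F : (ℕ → ℝ) → ℕ → Bool,
        (∀ u v : ℕ → ℝ, Bdd u → Bdd v → Tendsto (fun n => u n - v n) atTop (𝓝 0) → F u = F v) →
        (∀ i, TuringInvariant {x | F (w x) i = true}) ∧
        ((∀ i, Determined {x | F (w x) i = true}) →
          ∃ (u : ℕ → ℝ) (T : (ℕ → ℝ) →ₗ[ℝ] (ℕ → ℝ)), Bdd u ∧
            (∀ a, Bdd a → limsup (fun n => |T a n|) atTop = ⨆ i, |a i|) ∧
            ∀ a : ℕ → ℝ, (∀ i, |a i| ≤ R) → F (u + T a) = F u) := by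
  classical
  have hmem : ∀ t : ℝ, 8 * R * dl t ∈ Set.Icc 0 (8 * R) := fun t => by
    have h1 := dl_nonneg t
    have h2 := dl_le_one t
    constructor
    · positivity
    · nlinarith
  have hbdd : ∀ t : ℕ → ℝ, Bdd fun n => 8 * R * dl (t n) := fun t =>
    ⟨8 * R, fun n => by rw [abs_of_nonneg (hmem _).1]; exact (hmem _).2⟩
  have hcl : ∀ {a b : ℕ → ℝ}, Tendsto (fun m => a m - b m) atTop (𝓝 0) →
      Tendsto (fun m => 8 * R * dl (a m) - 8 * R * dl (b m)) atTop (𝓝 0) := by
    intro a b h
    have h1 := (dl_close_of h).const_mul (8 * R)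
    rw [mul_zero] at h1
    refine h1.congr fun m => ?_
    ring
  refine ⟨fun x n => 8 * R * dl (sq x n), ?_, fun x n => hmem _,
    fun x y h => hcl (sq_close h.1 h.2), ?_⟩
  · refine measurable_pi_lambda _ fun m => ?_
    exact measurable_const.mul (measurable_dl.comp (measurable_sq m))
  intro F hF
  have hinv : ∀ i, TuringInvariant {x | F (fun n => 8 * R * dl (sq x n)) i = true} := by
    intro i x y h1 h2 hx
    change F (fun n => 8 * R * dl (sq x n)) i = true at hx
    change F (fun n => 8 * R * dl (sq y n)) i = true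
    rw [← hF (fun n => 8 * R * dl (sq x n)) (fun n => 8 * R * dl (sq y n)) (hbdd _) (hbdd _)
      (hcl (sq_close h1 h2))]
    exact hx
  refine ⟨hinv, fun hD => ?_⟩
  obtain ⟨z, hz⟩ := invariant_on_cone (fun x n => 8 * R * dl (sq x n)) F hinv hD
  obtain ⟨s, hs0, hs, hw⟩ := walk_sq z
  have hval : ∀ θ : ℝ → ℝ, Nice θ →
      F (fun m => 8 * R * dl (θ (s m))) = F (fun n => 8 * R * dl (sq z n)) := by
    intro θ hθ
    obtain ⟨y, hy, hy'⟩ := hw θ hθ
    rw [← hz y hy]
    exact (hF _ _ (hbdd _) (hbdd _) (hcl hy')).symm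
  -- the choice of the phase
  have hph : ∃ r : ℝ, 0 ≤ r ∧ ∃ᶠ m in atTop, ∃ k : ℕ,
      max (s m - r) 0 / 2 ∈ Set.Icc ((k : ℝ) + 1 / 4) (k + 3 / 4) := by
    have h1 : ∀ᶠ m in atTop,
        (∃ k : ℕ, max (s m - 0) 0 / 2 ∈ Set.Icc ((k : ℝ) + 1 / 4) (k + 3 / 4)) ∨
        ∃ k : ℕ, max (s m - 1) 0 / 2 ∈ Set.Icc ((k : ℝ) + 1 / 4) (k + 3 / 4) := by
      filter_upwards [hs.eventually_ge_atTop 2] with m hm
      have h2 := Nat.floor_le (show 0 ≤ s m / 2 by linarith)
      have h3 := Nat.lt_floor_add_one (s m / 2)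
      rw [max_eq_left (by linarith), max_eq_left (by linarith)]
      set k := ⌊s m / 2⌋₊ with hk
      rcases lt_or_ge (s m / 2) (k + 1 / 4) with h4 | h4
      · right
        have hk1 : 1 ≤ k := by
          have h5 : (0 : ℝ) < k := by linarith
          exact_mod_cast h5
        refine ⟨k - 1, ?_, ?_⟩
        · push_cast [Nat.cast_sub hk1]
          linarith
        · push_cast [Nat.cast_sub hk1]
          linarith
      · rcases le_or_gt (s m / 2) (k + 3 / 4) with h5 | h5
        · left
          exact ⟨k, by linarith, by linarith⟩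
        · right
          exact ⟨k, by linarith, by linarith⟩
    rcases (frequently_or_distrib.1 h1.frequently) with h2 | h2
    · exact ⟨0, le_rfl, h2⟩
    · exact ⟨1, zero_le_one, h2⟩
  obtain ⟨r, hr, hfr⟩ := hph
  set t : ℕ → ℝ := fun m => max (s m - r) 0 / 2 with ht
  have ht0 : ∀ m, 0 ≤ t m := fun m => div_nonneg (le_max_right _ _) (by norm_num)
  have htt : Tendsto t atTop atTop :=
    (((nice_shift hr).top).comp hs).atTop_div_const (by norm_num)
  set K : Set ℕ := {k | ∃ m, t m ∈ Set.Icc ((k : ℝ) + 1 / 4) (k + 3 / 4)} with hK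
  have hKi : K.Infinite := by
    refine Set.infinite_of_forall_exists_gt fun N => ?_
    obtain ⟨m, ⟨k, hk⟩, hm⟩ := (hfr.and_eventually (htt.eventually_ge_atTop (N + 1 : ℝ))).exists
    refine ⟨k, ⟨m, hk⟩, ?_⟩
    have h1 := hk.2
    have h2 : (N : ℝ) < k := by
      have h3 : (N : ℝ) + 1 ≤ k + 3 / 4 := hm.trans h1
      linarith
    exact_mod_cast h2
  have hch : ∀ k, ∃ m, k ∈ K → t m ∈ Set.Icc ((k : ℝ) + 1 / 4) (k + 3 / 4) := fun k => by
    by_cases h : k ∈ K
    · obtain ⟨m, hm⟩ := h
      exact ⟨m, fun _ => hm⟩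
    · exact ⟨0, fun h' => absurd h' h⟩
  choose M hM using hch
  set C : ℕ → ℝ := fun k => if k ∈ K then t (M k) else k + 1 / 2 with hCdef
  have hC : ∀ k : ℕ, C k ∈ Set.Icc ((k : ℝ) + 1 / 4) (k + 3 / 4) := by
    intro k
    by_cases h : k ∈ K
    · have h1 : C k = t (M k) := if_pos h
      rw [h1]
      exact hM k h
    · have h1 : C k = k + 1 / 2 := if_neg h
      rw [h1]
      exact ⟨by linarith, by linarith⟩
  set j : ℕ → ℕ := fun k => (Nat.unpair (Nat.count (· ∈ K) k)).1 with hj
  -- the main computation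
  have hmain : ∀ a : ℕ → ℝ, (∀ i, |a i| ≤ R) →
      F (fun m => 8 * R * dl (blk K (t m)) + sg K ⌊t m⌋₊ * bump C (t m) * a (j ⌊t m⌋₊)) =
        F (fun n => 8 * R * dl (sq z n)) := by
    intro a ha
    have hb : ∀ k, |(a (j k)) / (8 * R)| ≤ 1 / 8 := fun k => by
      rw [abs_div, abs_of_pos (show 0 < 8 * R by linarith), div_le_div_iff₀ (by linarith)
        (by norm_num)]
      linarith [ha (j k)]
    have hn := nice_comp (nice_blk hKi) (nice_comp (nice_phi hC hb) (nice_shift hr))
    rw [← hval _ hn]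
    congr 1
    funext m
    have h1 := dl_phi K hC hb (ht0 m)
    have h2 : max (s m - r) 0 / 2 = t m := rfl
    rw [h2, h1, phi]
    field_simp
  refine ⟨fun m => 8 * R * dl (blk K (t m)),
    lin (fun m => sg K ⌊t m⌋₊ * bump C (t m)) (fun m => j ⌊t m⌋₊), hbdd _,
    fun a ha => isometry_lin ?_ ?_ ha, fun a ha => ?_⟩
  · intro m
    rw [abs_mul, abs_of_nonneg (bump_nonneg C (t m))]
    have h1 := abs_sg_le K ⌊t m⌋₊
    have h2 := bump_le_one C (t m)
    have h3 := bump_nonneg C (t m)
    calc |sg K ⌊t m⌋₊| * bump C (t m) ≤ 1 * 1 := mul_le_mul h1 h2 h3 zero_le_one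
      _ = 1 := one_mul 1
  · intro i
    rw [Nat.frequently_atTop_iff_infinite]
    have hcn : ∀ n, Nat.count (· ∈ K) (Nat.nth (· ∈ K) n) = n := fun n =>
      Nat.count_nth_of_infinite hKi n
    have hmk : ∀ n, Nat.nth (· ∈ K) n ∈ K := fun n => Nat.nth_mem_of_infinite hKi n
    have hfl : ∀ k ∈ K, ⌊t (M k)⌋₊ = k := fun k hk => by
      have h1 := hM k hk
      rw [Nat.floor_eq_iff (ht0 _)]
      exact ⟨by linarith [h1.1], by linarith [h1.2]⟩
    refine Set.infinite_of_injective_forall_mem
      (f := fun n => M (Nat.nth (· ∈ K) (Nat.pair i n))) ?_ ?_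
    · intro n n' hnn
      have h1 := hfl _ (hmk (Nat.pair i n))
      have h2 := hfl _ (hmk (Nat.pair i n'))
      simp only at hnn
      rw [hnn, h2] at h1
      have h3 := congrArg (Nat.count (· ∈ K)) h1
      rw [hcn, hcn] at h3
      exact ((Nat.pair_eq_pair.1 h3).2).symm
    · intro n
      have hk := hmk (Nat.pair i n)
      have h1 := hfl _ hk
      set k := Nat.nth (· ∈ K) (Nat.pair i n) with hkdef
      change |sg K ⌊t (M k)⌋₊ * bump C (t (M k))| = 1 ∧ j ⌊t (M k)⌋₊ = i
      have h2 : C k = t (M k) := if_pos hk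
      rw [h1]
      constructor
      · rw [abs_mul, abs_sg hk, bump, h1, h2, sub_self, abs_zero]
        norm_num
      · simp only [hj, hkdef, hcn, Nat.unpair_pair]
  · have h1 := hmain a ha
    have h2 := hmain (fun _ => 0) (fun i => by simpa using hR.le)
    simp only [mul_zero, add_zero] at h2
    rw [h2, ← h1]
    rfl

end Pool.Agent.Results.MP_917879_lc.IsometricCopies
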