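import Pool.Agent.X245.TD.Blocks

set_option autoImplicit false

/-!
Turing determinacy implies that every monotone map from the `[0,1]`-valued sequences modulo null
sequences to a partial order which injects into the reals is constant on all sequences vanishing on
infinitely many blocks, and equal to one on infinitely many blocks, of a suitable block structure
(so it is constant at the characteristic functions of a comeagre family of sets of natural
numbers). Stated as an explicit reduction to the determinacy of Turing invariant sets.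
-/

namespace Pool.Agent.Results.MP_917879_lc.MonotoneMaps

open Pool.Agent.H685R3 Pool.Agent.TH774.TD Pool.Agent.X245.TD Filter Topology

/-- `x` and `y` have the same Turing degree (Mathlib's Turing reducibility, for characteristic
functions). -/
def SameDegree (x y : ℕ → Bool) : Prop :=
  TuringReducible (charFn x) (charFn y) ∧ TuringReducible (charFn y) (charFn x)

/-- There is a Borel map `w` from the Cantor space to the sequences in the unit interval, sending
Turing equivalent reals to sequences with difference tending to zero, such that, for every partial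
order `P` injecting into the reals by `e` and every monotone map `F` from the sequences in the unit
interval to `P` which does not change under null perturbations, the sets
`{x | e (F (w x)) i = true}` are Turing invariant; and if all of them are determined, then there
are `s : ℕ → ℕ` tending to infinity and a single value `c` such that `F x = c` for every sequence
`x` in the unit interval which vanishes on infinitely many of the blocks `{m | s m = k}` and is
equal to one on infinitely many of these blocks; in particular `F` has the value `c` at the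
characteristic functions of a comeagre family of sets of natural numbers. -/
theorem result :
    ∃ w : (ℕ → Bool) → ℕ → ℝ, Measurable w ∧ (∀ x n, w x n ∈ Set.Icc (0 : ℝ) 1) ∧
      (∀ x y, SameDegree x y → Tendsto (fun n => w x n - w y n) atTop (𝓝 0)) ∧
      ∀ (P : Type*) [PartialOrder P] (e : P → ℕ → Bool), Function.Injective e →
        ∀ F : (ℕ → ℝ) → P,
        (∀ x y : ℕ → ℝ, (∀ n, x n ∈ Set.Icc (0 : ℝ) 1) → (∀ n, y n ∈ Set.Icc (0 : ℝ) 1) →
          Tendsto (fun n => x n - y n) atTop (𝓝 0) → F x = F y) →
        (∀ x y : ℕ → ℝ, (∀ n, x n ∈ Set.Icc (0 : ℝ) 1) → (∀ n, y n ∈ Set.Icc (0 : ℝ) 1) →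
          (∀ n, x n ≤ y n) → F x ≤ F y) →
        (∀ i, TuringInvariant {x | e (F (w x)) i = true}) ∧
        ((∀ i, Determined {x | e (F (w x)) i = true}) →
          ∃ (s : ℕ → ℕ) (c : P), Tendsto s atTop atTop ∧
            (∀ x : ℕ → ℝ, (∀ n, x n ∈ Set.Icc (0 : ℝ) 1) →
              (∃ᶠ k in atTop, ∀ m, s m = k → x m = 0) →
              (∃ᶠ k in atTop, ∀ m, s m = k → x m = 1) → F x = c) ∧
            ∀ᶠ a in residual (ℕ → Bool), F (fun n => if a n = true then 1 else 0) = c) := by
  classical
  refine ⟨rho, measurable_rho, fun x n => wv_mem _, fun x y h => rho_close h.1 h.2, ?_⟩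
  intro P _ e he F hF hmono
  have hinv : ∀ i, TuringInvariant {x | e (F (rho x)) i = true} := by
    intro i x y h1 h2 hx
    change e (F (rho x)) i = true at hx
    change e (F (rho y)) i = true
    rw [← hF (rho x) (rho y) (fun n => wv_mem _) (fun n => wv_mem _) (rho_close h1 h2)]
    exact hx
  refine ⟨hinv, fun hD => ?_⟩
  obtain ⟨z, hz⟩ := invariant_on_cone rho (fun u => e (F u)) hinv hD
  obtain ⟨s, hs0, hs, hw⟩ := walk_sq z
  have hval : ∀ θ : ℝ → ℝ, Nice θ → F (fun m => wv (θ (s m))) = F (rho z) := by
    intro θ hθ
    obtain ⟨y, hy, hy'⟩ := hw θ hθ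
    have h1 : F (rho y) = F (rho z) := he (hz y hy)
    rw [← h1]
    exact (hF _ _ (fun n => wv_mem _) (fun n => wv_mem _) (rho_close_of hy')).symm
  have hfl : Tendsto (fun m => ⌊s m⌋₊) atTop atTop := tendsto_nat_floor_atTop.comp hs
  suffices hmain : ∀ x : ℕ → ℝ, (∀ n, x n ∈ Set.Icc (0 : ℝ) 1) →
      (∃ᶠ k in atTop, ∀ m, ⌊s m⌋₊ = k → x m = 0) →
      (∃ᶠ k in atTop, ∀ m, ⌊s m⌋₊ = k → x m = 1) → F x = F (rho z) by
    refine ⟨fun m => ⌊s m⌋₊, F (rho z), hfl, hmain, ?_⟩
    filter_upwards [residual_blocks hfl false, residual_blocks hfl true] with a h0 h1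
    refine hmain _ (fun n => ?_) (h0.mono fun k hk m hm => ?_) (h1.mono fun k hk m hm => ?_)
    · split_ifs <;> norm_num
    · simp [hk m hm]
    · simp [hk m hm]
  intro x hx h0 h1
  set K0 : Set ℕ := {k | ∀ m, ⌊s m⌋₊ = k → x m = 0} with hK0
  set K1 : Set ℕ := {k | ∀ m, ⌊s m⌋₊ = k → x m = 1} with hK1
  have hi0 : K0.Infinite := Nat.frequently_atTop_iff_infinite.1 h0
  have hi1 : K1.Infinite := Nat.frequently_atTop_iff_infinite.1 h1
  apply le_antisymm
  · -- the upper bound
    have hn : Nice fun t => max (blk K0 t - 1 / 2) 0 :=
      nice_comp (nice_shift (c := 1 / 2) (by norm_num)) (nice_blk hi0)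
    rw [← hval _ hn]
    have hev : ∀ᶠ m in atTop, x m ≤ wv (max (blk K0 (s m) - 1 / 2) 0) := by
      filter_upwards [((nice_blk hi0).top.comp hs).eventually_ge_atTop (1 / 2)] with m hm
      rw [wv_blk_shift K0 (hs0 m) hm]
      split_ifs with h
      · rw [h m rfl]
        have := (wv_mem (s m)).2
        linarith
      · exact (hx m).2
    rw [← hF (fun m => max (x m) (wv (max (blk K0 (s m) - 1 / 2) 0)))
      (fun m => wv (max (blk K0 (s m) - 1 / 2) 0))
      (fun n => ⟨(hx n).1.trans (le_max_left _ _), max_le (hx n).2 (wv_mem _).2⟩)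
      (fun n => wv_mem _) ?_]
    · exact hmono _ _ hx
        (fun n => ⟨(hx n).1.trans (le_max_left _ _), max_le (hx n).2 (wv_mem _).2⟩)
        (fun n => le_max_left _ _)
    · refine Tendsto.congr' ?_ tendsto_const_nhds
      filter_upwards [hev] with m hm
      rw [max_eq_right hm, sub_self]
  · -- the lower bound
    rw [← hval _ (nice_blk hi1)]
    refine hmono _ _ (fun n => wv_mem _) hx fun m => ?_
    rw [wv_blk K1 (hs0 m)]
    split_ifs with h
    · rw [h m rfl]
      exact (wv_mem (s m)).2
    · exact (hx m).1

end Pool.Agent.Results.MP_917879_lc.MonotoneMaps
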