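import Pool.Agent.X245.TD.Germs

set_option autoImplicit false

/-!
Turing determinacy implies that the invariants of sequences modulo null sequences with values in the
countable sequences of ordinals are constant on the full orbits of suitable sequences under the
increasing bi-Lipschitz reparametrizations. Stated as an explicit reduction to the determinacy of
Turing invariant sets.
-/

namespace Pool.Agent.Results.MP_917879_lc.OrdinalInvariants

open Pool.Agent.H685R3 Pool.Agent.TH774.TD Pool.Agent.X245.TD Filter Topology

/-- `x` and `y` have the same Turing degree (Mathlib's Turing reducibility, for characteristic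
functions). -/
def SameDegree (x y : ℕ → Bool) : Prop :=
  TuringReducible (charFn x) (charFn y) ∧ TuringReducible (charFn y) (charFn x)

/-- The function `h` is increasing and bi-Lipschitz on some half line `[N, ∞)`. -/
def EventuallyBiLipschitz (h : ℝ → ℝ) : Prop :=
  ∃ N c : ℝ, 0 < c ∧ ∀ x y, N ≤ x → x ≤ y →
    c * (y - x) ≤ h y - h x ∧ c * (h y - h x) ≤ y - x

/-- The set of the reals `x` at which the `i`-th coordinate of the value of `F` on the sequence
`f ∘ w x` is least possible among its values at all the reparametrizations `f ∘ g ∘ w x`. -/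
def Least {X L : Type*} [LE L] (F : (ℕ → X) → ℕ → L) (w : (ℕ → Bool) → ℕ → ℝ) (f : ℝ → X)
    (i : ℕ) : Set (ℕ → Bool) :=
  {x | ∀ g : ℝ → ℝ, EventuallyBiLipschitz g →
    F (fun n => f (w x n)) i ≤ F (fun n => f (g (w x n))) i}

theorem uc_close {X : Type*} [PseudoMetricSpace X] {f : ℝ → X} (hf : UniformContinuous f)
    {a b : ℕ → ℝ} (h : Tendsto (fun n => a n - b n) atTop (𝓝 0)) :
    Tendsto (fun n => dist (f (a n)) (f (b n))) atTop (𝓝 0) := by
  rw [Metric.tendsto_atTop]
  intro ε hε
  obtain ⟨δ, hδ, h1⟩ := Metric.uniformContinuous_iff.1 hf ε hε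
  obtain ⟨N, hN⟩ := Metric.tendsto_atTop.1 h δ hδ
  refine ⟨N, fun n hn => ?_⟩
  have h2 := hN n hn
  rw [Real.dist_eq, sub_zero] at h2
  have h3 : dist (a n) (b n) < δ := by rwa [Real.dist_eq]
  rw [Real.dist_eq, sub_zero, abs_of_nonneg dist_nonneg]
  exact h1 h3

/-- There is a Borel map `w` from the Cantor space to the real sequences tending to infinity,
sending Turing equivalent reals to sequences with difference tending to zero, such that, for every
metric space `X`, all uniformly continuous curves `f 0, f 1, …` in `X`, every well ordered set `L`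
and every map `F` from the sequences of points of `X` to the sequences in `L` which does not change
under null perturbations, the sets `Least F w (f j) i` are Turing invariant; and if all of them are
determined, then there is a real sequence `s` tending to infinity such that
`F (f j ∘ h ∘ s) = F (f j ∘ s)` for all `j` and for every function `h` which is increasing and
bi-Lipschitz on some half line `[N, ∞)`. -/
theorem result :
    ∃ w : (ℕ → Bool) → ℕ → ℝ, Measurable w ∧ (∀ x, Tendsto (w x) atTop atTop) ∧
      (∀ x y, SameDegree x y → Tendsto (fun n => w x n - w y n) atTop (𝓝 0)) ∧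
      ∀ (X : Type*) [PseudoMetricSpace X] (L : Type*) [LinearOrder L] [WellFoundedLT L]
        (F : (ℕ → X) → ℕ → L),
        (∀ u v : ℕ → X, Tendsto (fun n => dist (u n) (v n)) atTop (𝓝 0) → F u = F v) →
        ∀ f : ℕ → ℝ → X, (∀ j, UniformContinuous (f j)) →
        (∀ j i, TuringInvariant (Least F w (f j) i)) ∧
        ((∀ j i, Determined (Least F w (f j) i)) →
          ∃ s : ℕ → ℝ, Tendsto s atTop atTop ∧ ∀ j, ∀ h : ℝ → ℝ, EventuallyBiLipschitz h →
            F (fun n => f j (h (s n))) = F (fun n => f j (s n))) := by
  refine ⟨sq, measurable_pi_lambda _ measurable_sq, tendsto_sq,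
    fun x y h => sq_close h.1 h.2, ?_⟩
  intro X _ L _ _ F hF f hf
  have hclose : ∀ j, ∀ {a b : ℕ → ℝ}, Tendsto (fun n => a n - b n) atTop (𝓝 0) →
      F (fun n => f j (a n)) = F (fun n => f j (b n)) := fun j _ _ h => hF _ _ (uc_close (hf j) h)
  have hev : ∀ j, ∀ {a b : ℕ → ℝ}, (∀ᶠ n in atTop, a n = b n) →
      F (fun n => f j (a n)) = F (fun n => f j (b n)) := by
    intro j a b h
    refine hclose j (Tendsto.congr' ?_ tendsto_const_nhds)
    filter_upwards [h] with n hn
    rw [hn, sub_self]
  have hinv : ∀ j i, TuringInvariant (Least F sq (f j) i) := by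
    intro j i x y h1 h2 hx g hg
    have h3 := hx g hg
    have h4 := sq_close h1 h2
    rw [hclose j h4, hclose j (X245.TD.EventuallyBiLipschitz.close hg (tendsto_sq x)
      (tendsto_sq y) h4)] at h3
    exact h3
  refine ⟨hinv, fun hD => ?_⟩
  obtain ⟨z, hz⟩ := cone_countable (J := ℕ × ℕ) (fun q => Least F sq (f q.1) q.2)
    (fun q => hinv _ _) (fun q => hD _ _)
  obtain ⟨s, hs, hw⟩ := walk_germ z
  refine ⟨s, hs, fun j h hh => ?_⟩
  -- the values along the walk
  have hval : ∀ g, EventuallyBiLipschitz g → ∃ y, Pool.Agent.Helper227.TLe z y ∧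
      F (fun n => f j (sq y n)) = F (fun n => f j (g (s n))) ∧
      ∀ k, EventuallyBiLipschitz k →
        F (fun n => f j (k (sq y n))) = F (fun n => f j (k (g (s n)))) := by
    intro g hg
    obtain ⟨y, hy, hy'⟩ := hw g hg
    refine ⟨y, hy, hclose j hy', fun k hk => ?_⟩
    exact hclose j (X245.TD.EventuallyBiLipschitz.close hk (tendsto_sq y)
      ((X245.TD.EventuallyBiLipschitz.tendsto hg).comp hs) hy')
  funext i
  rcases hz (j, i) with hA | hA
  · -- the least value is always attained
    have key : ∀ g g', EventuallyBiLipschitz g → EventuallyBiLipschitz g' →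
        F (fun n => f j (g (s n))) i ≤ F (fun n => f j (g' (s n))) i := by
      intro g g' hg hg'
      obtain ⟨y, hy, h1, h2⟩ := hval g hg
      obtain ⟨k, hk, hk'⟩ := X245.TD.EventuallyBiLipschitz.exists_inv hg
      have hc : EventuallyBiLipschitz fun x => g' (k x) :=
        X245.TD.EventuallyBiLipschitz.comp hg' hk
      have h3 := hA y hy _ hc
      have h4 : F (fun n => f j (g' (k (g (s n))))) = F (fun n => f j (g' (s n))) := by
        refine hev j ?_
        filter_upwards [hs.eventually hk'] with n hn
        rw [hn]
      rw [h1, h2 _ hc, h4] at h3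
      exact h3
    have h0 : EventuallyBiLipschitz fun x => x := X245.TD.EventuallyBiLipschitz.id
    exact le_antisymm (key _ _ hh h0) (key _ _ h0 hh)
  · -- the least value is never attained
    exfalso
    let V : Set L := {l | ∃ g, EventuallyBiLipschitz g ∧ F (fun n => f j (g (s n))) i = l}
    have hV : V.Nonempty := ⟨_, h, hh, rfl⟩
    have hmem : WellFounded.min (wellFounded_lt (α := L)) V hV ∈ V := WellFounded.min_mem _ _ _
    obtain ⟨g, hg, hgm⟩ := hmem
    obtain ⟨y, hy, h1, h2⟩ := hval g hg
    have h3 := hA y hy
    have h4 : ∃ k, EventuallyBiLipschitz k ∧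
        F (fun n => f j (k (sq y n))) i < F (fun n => f j (sq y n)) i := by
      by_contra h5
      push Not at h5
      exact h3 fun k hk => h5 k hk
    obtain ⟨k, hk, hlt⟩ := h4
    rw [h1, h2 k hk, hgm] at hlt
    exact WellFounded.not_lt_min (wellFounded_lt (α := L)) V
      ⟨_, X245.TD.EventuallyBiLipschitz.comp hk hg, rfl⟩ hlt

end Pool.Agent.Results.MP_917879_lc.OrdinalInvariants
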