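import Pool.Agent.X245.TD.Blocks

set_option autoImplicit false

/-!
Turing determinacy implies that a homomorphism from a group of sequences of elements of a group
with a topology to a group injecting into the reals, which kills all sequences tending to the
identity, kills every sequence of elements which can be joined to the identity by a uniformly
equicontinuous family of paths. Stated as an explicit reduction to the determinacy of Turing
invariant sets.
-/

namespace Pool.Agent.Results.MP_917879_lc.PathGroups

open Pool.Agent.H685R3 Pool.Agent.TH774.TD Pool.Agent.X245.TD Filter Topology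

/-- `x` and `y` have the same Turing degree (Mathlib's Turing reducibility, for characteristic
functions). -/
def SameDegree (x y : ℕ → Bool) : Prop :=
  TuringReducible (charFn x) (charFn y) ∧ TuringReducible (charFn y) (charFn x)

/-- A uniformly equicontinuous family of paths in `G`, indexed by the natural numbers, starting at
the identity, such that every choice of one point on each of the paths is a sequence of the group
`S` of sequences. -/
structure PathFamily {G : Type*} [Group G] [TopologicalSpace G] (S : Subgroup (ℕ → G))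
    (p : ℕ → ℝ → G) : Prop where
  zero : ∀ n, p n 0 = 1
  mem : ∀ t : ℕ → ℝ, (∀ n, t n ∈ Set.Icc (0 : ℝ) 1) → (fun n => p n (t n)) ∈ S
  equi : ∀ U ∈ 𝓝 (1 : G), ∃ δ > 0, ∀ n, ∀ a ∈ Set.Icc (0 : ℝ) 1, ∀ b ∈ Set.Icc (0 : ℝ) 1,
    |a - b| < δ → p n a * (p n b)⁻¹ ∈ U

/-- The reversed paths. -/
def rev {G : Type*} [Group G] (p : ℕ → ℝ → G) (n : ℕ) (t : ℝ) : G := p n (1 - t) * (p n 1)⁻¹

theorem mem_symm {t : ℝ} (h : t ∈ Set.Icc (0 : ℝ) 1) : 1 - t ∈ Set.Icc (0 : ℝ) 1 :=
  ⟨by linarith [h.2], by linarith [h.1]⟩

theorem one_mem_Icc : (1 : ℝ) ∈ Set.Icc (0 : ℝ) 1 := ⟨zero_le_one, le_rfl⟩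

theorem PathFamily.rev {G : Type*} [Group G] [TopologicalSpace G] {S : Subgroup (ℕ → G)}
    {p : ℕ → ℝ → G} (h : PathFamily S p) : PathFamily S (rev p) where
  zero := fun n => by simp [PathGroups.rev]
  mem := fun t ht => S.mul_mem (h.mem _ fun n => mem_symm (ht n))
    (S.inv_mem (h.mem _ fun _ => one_mem_Icc))
  equi := fun U hU => by
    obtain ⟨δ, hδ, h1⟩ := h.equi U hU
    refine ⟨δ, hδ, fun n a ha b hb hab => ?_⟩
    have h2 : PathGroups.rev p n a * (PathGroups.rev p n b)⁻¹ =
        p n (1 - a) * (p n (1 - b))⁻¹ := by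
      rw [PathGroups.rev, PathGroups.rev]
      group
    rw [h2]
    refine h1 n _ (mem_symm ha) _ (mem_symm hb) ?_
    have h3 : 1 - a - (1 - b) = b - a := by ring
    rw [h3, abs_sub_comm]
    exact hab

section
variable {G : Type*} [Group G] [TopologicalSpace G] {S : Subgroup (ℕ → G)} {H : Type*} [Group H]
  {F : (ℕ → G) → H} (hF : ∀ u ∈ S, ∀ v ∈ S, F (u * v) = F u * F v)
  (hF0 : ∀ u ∈ S, Tendsto u atTop (𝓝 1) → F u = 1)
include hF hF0

theorem close {p : ℕ → ℝ → G} (hp : PathFamily S p) {a b : ℕ → ℝ}
    (ha : ∀ n, a n ∈ Set.Icc (0 : ℝ) 1) (hb : ∀ n, b n ∈ Set.Icc (0 : ℝ) 1)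
    (h : Tendsto (fun n => a n - b n) atTop (𝓝 0)) :
    F (fun n => p n (a n)) = F (fun n => p n (b n)) := by
  have h1 := hp.mem a ha
  have h2 := hp.mem b hb
  have h3 : F ((fun n => p n (a n)) * (fun n => p n (b n))⁻¹) = 1 := by
    refine hF0 _ (S.mul_mem h1 (S.inv_mem h2)) ?_
    rw [tendsto_def]
    intro U hU
    obtain ⟨δ, hδ, h4⟩ := hp.equi U hU
    have h5 := Metric.tendsto_atTop.1 h δ hδ
    obtain ⟨N, hN⟩ := h5
    filter_upwards [eventually_ge_atTop N] with n hn
    have h6 := hN n hn
    rw [Real.dist_eq, sub_zero] at h6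
    exact h4 n _ (ha n) _ (hb n) h6
  have h4 := hF _ (S.mul_mem h1 (S.inv_mem h2)) _ h2
  rw [h3, one_mul, inv_mul_cancel_right] at h4
  exact h4

end

/-- There is a Borel map `w` from the Cantor space to the sequences in the unit interval, sending
Turing equivalent reals to sequences with difference tending to zero, such that, for every group
`G` with a topology, every group `S` of sequences of elements of `G`, every group `H` which injects
into the reals by `ι`, and every homomorphism `F` from `S` to `H` which kills the sequences of `S`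
tending to the identity, the sets `{x | ι (F (n ↦ p n (w x n))) i = true}` are Turing invariant, for
all the families of paths `p`; and if all of them are determined, then `F` kills the sequence
`n ↦ p n 1` of the end points of the paths of every family of paths. -/
theorem result :
    ∃ w : (ℕ → Bool) → ℕ → ℝ, Measurable w ∧ (∀ x n, w x n ∈ Set.Icc (0 : ℝ) 1) ∧
      (∀ x y, SameDegree x y → Tendsto (fun n => w x n - w y n) atTop (𝓝 0)) ∧
      ∀ (G : Type*) [Group G] [TopologicalSpace G] (S : Subgroup (ℕ → G)) (H : Type*) [Group H]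
        (ι : H → ℕ → Bool), Function.Injective ι → ∀ F : (ℕ → G) → H,
        (∀ u ∈ S, ∀ v ∈ S, F (u * v) = F u * F v) →
        (∀ u ∈ S, Tendsto u atTop (𝓝 1) → F u = 1) →
        (∀ p, PathFamily S p →
          ∀ i, TuringInvariant {x | ι (F fun n => p n (w x n)) i = true}) ∧
        ((∀ p, PathFamily S p → ∀ i, Determined {x | ι (F fun n => p n (w x n)) i = true}) →
          ∀ p, PathFamily S p → F (fun n => p n 1) = 1) := by
  classical
  refine ⟨rho, measurable_rho, fun x n => wv_mem _, fun x y h => rho_close h.1 h.2, ?_⟩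
  intro G _ _ S H _ ι hι F hF hF0
  have hinv : ∀ p, PathFamily S p →
      ∀ i, TuringInvariant {x | ι (F fun n => p n (rho x n)) i = true} := by
    intro p hp i x y h1 h2 hx
    change ι (F fun n => p n (rho x n)) i = true at hx
    change ι (F fun n => p n (rho y n)) i = true
    rw [← close hF hF0 hp (a := rho x) (b := rho y) (fun n => wv_mem _) (fun n => wv_mem _)
      (rho_close h1 h2)]
    exact hx
  refine ⟨hinv, fun hD p hp => ?_⟩
  -- a common cone for the paths and the reversed paths
  let q : Bool → ℕ → ℝ → G := fun b => if b then p else rev p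
  have hq : ∀ b, PathFamily S (q b) := fun b => by
    cases b
    · exact hp.rev
    · exact hp
  obtain ⟨z, hz⟩ := invariant_on_cone_countable (J := Bool)
    (fun b x => ι (F fun n => q b n (rho x n)))
    (fun b i => hinv _ (hq b) i) (fun b i => hD _ (hq b) i)
  obtain ⟨s, hs0, hs, hw⟩ := walk_sq z
  have hval : ∀ b, ∀ θ : ℝ → ℝ, Nice θ →
      F (fun n => q b n (wv (θ (s n)))) = F (fun n => q b n (rho z n)) := by
    intro b θ hθ
    obtain ⟨y, hy, hy'⟩ := hw θ hθ
    have h1 : F (fun n => q b n (rho y n)) = F (fun n => q b n (rho z n)) := hι (hz b y hy)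
    rw [← h1]
    exact (close hF hF0 (hq b) (fun n => wv_mem _) (fun n => wv_mem _) (rho_close_of hy')).symm
  -- the values are trivial
  have hE : ({k : ℕ | Even k} : Set ℕ).Infinite := by
    refine Set.infinite_of_injective_forall_mem (f := fun n : ℕ => 2 * n) ?_ ?_
    · intro a b hab
      simpa using hab
    · intro n
      exact even_two_mul n
  have hO : ({k : ℕ | ¬ Even k} : Set ℕ).Infinite := by
    refine Set.infinite_of_injective_forall_mem (f := fun n : ℕ => 2 * n + 1) ?_ ?_
    · intro a b hab
      simpa using hab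
    · intro n
      simp
  have hone : ∀ b, F (fun n => q b n (rho z n)) = 1 := by
    intro b
    have h1 := hval b _ (nice_blk hE)
    have h2 := hval b _ (nice_blk hO)
    have h3 := hval b _ nice_id
    have h4 := hF _ ((hq b).mem (fun n => wv (blk {k : ℕ | Even k} (s n))) (fun n => wv_mem _))
      _ ((hq b).mem (fun n => wv (blk {k : ℕ | ¬ Even k} (s n))) (fun n => wv_mem _))
    have h5 : ((fun n => q b n (wv (blk {k : ℕ | Even k} (s n)))) *
        fun n => q b n (wv (blk {k : ℕ | ¬ Even k} (s n)))) = fun n => q b n (wv (s n)) := by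
      funext n
      rw [Pi.mul_apply, wv_blk _ (hs0 n), wv_blk _ (hs0 n)]
      by_cases h : Even ⌊s n⌋₊
      · have h6 : ⌊s n⌋₊ ∈ {k : ℕ | Even k} := h
        have h7 : ¬ ⌊s n⌋₊ ∈ {k : ℕ | ¬ Even k} := fun h8 => h8 h
        rw [if_pos h6, if_neg h7, (hq b).zero, mul_one]
      · have h6 : ¬ ⌊s n⌋₊ ∈ {k : ℕ | Even k} := h
        have h7 : ⌊s n⌋₊ ∈ {k : ℕ | ¬ Even k} := h
        rw [if_neg h6, if_pos h7, (hq b).zero, one_mul]
    rw [h5, h1, h2, h3] at h4
    simpa using h4.symm
  have h1 : F (fun n => p n (wv (s n))) = 1 := (hval true _ nice_id).trans (hone true)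
  have h2 : F (fun n => rev p n (1 - wv (s n))) = 1 := by
    have h3 := (hval false _ (nice_shift (c := 1 / 2) (by norm_num))).trans (hone false)
    rw [← h3]
    refine close hF hF0 hp.rev (a := fun n => 1 - wv (s n))
      (b := fun n => wv (max (s n - 1 / 2) 0)) (fun n => mem_symm (wv_mem _))
      (fun n => wv_mem _) ?_
    refine Tendsto.congr' ?_ tendsto_const_nhds
    filter_upwards [hs.eventually_ge_atTop (1 / 2)] with m hm
    have h5 := wv_shift hm
    linarith
  have hm1 : (fun n => p n 1) ∈ S := hp.mem _ fun _ => one_mem_Icc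
  have h3 := hF _ (hp.rev.mem (fun n => 1 - wv (s n)) fun n => mem_symm (wv_mem _)) _ hm1
  have h4 : ((fun n => rev p n (1 - wv (s n))) * fun n => p n 1) = fun n => p n (wv (s n)) := by
    funext n
    rw [Pi.mul_apply, rev]
    simp
  rw [h4, h1, h2, one_mul] at h3
  exact h3.symm

end Pool.Agent.Results.MP_917879_lc.PathGroups
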